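import Pool.Agent.Lib.MP_706923_co.Dens

/-!
# MP_706923_co: for fixed lambda the group orders carrying a difference set are rare

For every fixed `l ≥ 1` the number of `v ≤ x` for which some group of order `v` contains a
`(v,k,l)` difference set is `o(√x)`.
-/

set_option autoImplicit false

namespace Pool.Agent.Results.MP_706923_co.DensityZero

open Pool.Agent.Lib.MP_706923_co

/-- For fixed `l ≥ 1` the number of `v ≤ x` that are orders of finite groups containing a
difference set with parameter `l` is `o(√x)`. -/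
theorem result (l : ℕ) (hl : 1 ≤ l) :
    Filter.Tendsto
      (fun x : ℕ => (Nat.card {v : ℕ // v ≤ x ∧
        ∃ (G : Type) (_ : Group G) (_ : Fintype G) (_ : DecidableEq G) (D : Finset G),
          Fintype.card G = v ∧
          ∀ g : G, g ≠ 1 → ((D ×ˢ D).filter (fun p => p.1 * p.2⁻¹ = g)).card = l} : ℝ)
        / Real.sqrt x)
      Filter.atTop (nhds 0) := by
  rw [Metric.tendsto_atTop]
  intro ε hε
  have hlR : (1 : ℝ) ≤ l := by exact_mod_cast hl
  have hsl : 0 < Real.sqrt l := Real.sqrt_pos.mpr (by linarith)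
  have hε' : 0 < ε / (2 * Real.sqrt l) := by positivity
  obtain ⟨K, hK⟩ := UB_isK l hl hε'
  set e : ℝ := ε / (2 * Real.sqrt l) with he
  set C : ℝ := 2 * e + |K| with hC
  have hC0 : 0 < C := by
    have := abs_nonneg K
    linarith
  refine ⟨⌈(2 * C / ε) ^ 2⌉₊ + 1, fun x hx => ?_⟩
  have hxR : (2 * C / ε) ^ 2 < x := by
    have h1 := Nat.le_ceil ((2 * C / ε) ^ 2)
    have h2 : ((⌈(2 * C / ε) ^ 2⌉₊ + 1 : ℕ) : ℝ) ≤ x := by exact_mod_cast hx
    push_cast at h2
    linarith
  have hx0 : (0 : ℝ) < x := lt_of_le_of_lt (sq_nonneg _) hxR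
  have hsx : 0 < Real.sqrt x := Real.sqrt_pos.mpr hx0
  have hsx2 : 2 * C / ε < Real.sqrt x := by
    rw [← Real.sqrt_sq (by positivity : 0 ≤ 2 * C / ε)]
    exact Real.sqrt_lt_sqrt (sq_nonneg _) hxR
  set cnt := Nat.card {v : ℕ // v ≤ x ∧
        ∃ (G : Type) (_ : Group G) (_ : Fintype G) (_ : DecidableEq G) (D : Finset G),
          Fintype.card G = v ∧
          ∀ g : G, g ≠ 1 → ((D ×ˢ D).filter (fun p => p.1 * p.2⁻¹ = g)).card = l} with hcnt
  have hfin : Finite {k : ℕ // k < Nat.sqrt (l * x) + 2 ∧ IsK l k} :=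
    Set.Finite.subset (Set.finite_lt_nat (Nat.sqrt (l * x) + 2)) (fun x hx => hx.1)
  have hmap : ∀ w : {v : ℕ // v ≤ x ∧
        ∃ (G : Type) (_ : Group G) (_ : Fintype G) (_ : DecidableEq G) (D : Finset G),
          Fintype.card G = v ∧
          ∀ g : G, g ≠ 1 → ((D ×ˢ D).filter (fun p => p.1 * p.2⁻¹ = g)).card = l},
      ∃ k : {k : ℕ // k < Nat.sqrt (l * x) + 2 ∧ IsK l k},
        ((k.1 : ℤ)) ^ 2 - k.1 + l = l * w.1 := by
    rintro ⟨v, hv, G, i1, i2, i3, D, hcard, hD⟩
    have hid := ds_identity D l hD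
    rw [hcard] at hid
    refine ⟨⟨D.card, ?_, ⟨G, i1, i2, i3, D, rfl, hD⟩⟩, hid⟩
    rcases Nat.eq_zero_or_pos D.card with h0 | hpos
    · omega
    · obtain ⟨m, hm⟩ := Nat.exists_eq_add_of_le hpos
      have h1 : m ^ 2 ≤ l * x := by
        have h2 : ((m : ℤ)) ^ 2 ≤ l * x := by
          rw [hm] at hid
          push_cast at hid
          have h3 : (l : ℤ) * v ≤ l * x := by
            have : (v : ℤ) ≤ x := by exact_mod_cast hv
            have hl0 : (0 : ℤ) ≤ l := Int.natCast_nonneg l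
            exact mul_le_mul_of_nonneg_left this hl0
          have h4 : (0 : ℤ) ≤ m := Int.natCast_nonneg m
          have h5 : (0 : ℤ) ≤ l := Int.natCast_nonneg l
          have h6 : (1 : ℤ) ≤ l := by exact_mod_cast hl
          have h7 : (1 : ℤ) ≤ v := by
            have : 1 ≤ v := by rw [← hcard]; exact Fintype.card_pos
            exact_mod_cast this
          nlinarith
        exact_mod_cast h2
      have h2 : m ≤ Nat.sqrt (l * x) := Nat.le_sqrt'.mpr h1
      omega
  choose φ hφ using hmap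
  have hinj : Function.Injective φ := by
    intro a b hab
    have h1 := hφ a
    have h2 := hφ b
    rw [hab] at h1
    have h3 : (l : ℤ) * a.1 = l * b.1 := by rw [← h1, ← h2]
    have hl0 : (l : ℤ) ≠ 0 := by
      have : l ≠ 0 := by omega
      exact_mod_cast this
    have h4 : (a.1 : ℤ) = b.1 := mul_left_cancel₀ hl0 h3
    exact Subtype.ext (by exact_mod_cast h4)
  have h1 : cnt ≤ Nat.card {k : ℕ // k < Nat.sqrt (l * x) + 2 ∧ IsK l k} :=
    Nat.card_le_card_of_injective φ hinj
  have h2 : (cnt : ℝ) ≤ e * ((Nat.sqrt (l * x) + 2 : ℕ) : ℝ) + K := by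
    refine le_trans ?_ (hK _)
    exact_mod_cast h1
  have h3 : ((Nat.sqrt (l * x) : ℕ) : ℝ) ≤ Real.sqrt l * Real.sqrt x := by
    rw [← Real.sqrt_mul (by linarith)]
    apply Real.le_sqrt_of_sq_le
    have := Nat.sqrt_le' (l * x)
    exact_mod_cast this
  have h4 : (cnt : ℝ) ≤ e * (Real.sqrt l * Real.sqrt x) + C := by
    push_cast at h2
    have h5 : e * ((Nat.sqrt (l * x) : ℝ) + 2) ≤ e * (Real.sqrt l * Real.sqrt x + 2) :=
      mul_le_mul_of_nonneg_left (by linarith) hε'.le
    have h6 := le_abs_self K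
    rw [hC]
    nlinarith
  have h5 : e * (Real.sqrt l * Real.sqrt x) = (ε / 2) * Real.sqrt x := by
    rw [he]; field_simp
  have h6 : C < (ε / 2) * Real.sqrt x := by
    have := (div_lt_iff₀ hε).mp hsx2
    linarith
  rw [Real.dist_eq, sub_zero, abs_of_nonneg (by positivity), div_lt_iff₀ hsx]
  rw [h5] at h4
  linarith

end Pool.Agent.Results.MP_706923_co.DensityZero
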